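import Pool.Agent.H11.LGR.UTH

/-!
# MP_335823_al: row DME (the exponent for the prime quotients)
-/

set_option autoImplicit false

open MvPolynomial Pool.Agent.H87.CLG Pool.Agent.H11.LGR

namespace Pool.Agent.H11.LGR

/-- the representation on the quotient by an invariant submodule -/
noncomputable def qrep {R M Γ : Type} [CommRing R] [AddCommGroup M] [Module R M] [Group Γ]
    (ρ : Γ →* Module.End R M) (U : Submodule R M) (hU : ∀ γ, ∀ m ∈ U, ρ γ m ∈ U) :
    Γ →* Module.End R (M ⧸ U) where
  toFun γ := U.mapQ U (ρ γ) (fun m hm => hU γ m hm)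
  map_one' := by
    apply LinearMap.ext
    intro q
    obtain ⟨m, rfl⟩ := U.mkQ_surjective q
    change U.mkQ (ρ 1 m) = U.mkQ m
    rw [map_one]
    rfl
  map_mul' γ γ' := by
    apply LinearMap.ext
    intro q
    obtain ⟨m, rfl⟩ := U.mkQ_surjective q
    change U.mkQ (ρ (γ * γ') m) = U.mkQ (ρ γ (ρ γ' m))
    rw [map_mul]
    rfl

theorem pf_DME (hDOM : T_DOM) : T_DME := by
  intro n ν hν
  obtain ⟨e, he, h⟩ := hDOM n ν hν
  refine ⟨e, he, ?_⟩
  intro R M S Γ _ _ _ _ _ A X hX hL
  constructor
  · intro P U hP hU hPU hdom γ m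
    have hspan : Submodule.span R (Set.range fun i => U.mkQ (A.g i)) = ⊤ := by
      have h1 : (Set.range fun i => U.mkQ (A.g i)) = U.mkQ '' Set.range A.g := by
        rw [← Set.range_comp]
        rfl
      rw [h1, ← Submodule.map_span, A.span, Submodule.map_top, Submodule.range_mkQ]
    have hLX : LX ν X (qrep A.ρ U hU) := by
      intro l hl
      have h1 := hL l hl
      rw [← map_pow] at h1
      rw [← map_pow]
      apply LinearMap.ext
      intro q
      obtain ⟨m, rfl⟩ := U.mkQ_surjective q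
      change U.mkQ (A.ρ (l.prod ^ ν l.length) m) = U.mkQ m
      rw [h1]
      rfl
    have h2 := h R (M ⧸ U) Γ P X (qrep A.ρ U hU) (fun i => U.mkQ (A.g i)) hP hspan
      (fun r hr q => by
        obtain ⟨m, rfl⟩ := U.mkQ_surjective q
        rw [← map_smul]
        exact (Submodule.Quotient.mk_eq_zero U).2 (hPU r hr m))
      (fun r q hq => by
        obtain ⟨m, rfl⟩ := U.mkQ_surjective q
        rw [← map_smul] at hq
        rcases hdom r m ((Submodule.Quotient.mk_eq_zero U).1 hq) with h3 | h3
        · exact Or.inl h3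
        · exact Or.inr ((Submodule.Quotient.mk_eq_zero U).2 h3)) hX hLX γ
    have h3 : U.mkQ (A.ρ (γ ^ e) m) = U.mkQ m := by
      have h4 := congrArg (fun f : Module.End R (M ⧸ U) => f (U.mkQ m)) h2
      exact h4
    rw [← sub_eq_zero, ← map_sub] at h3
    exact (Submodule.Quotient.mk_eq_zero U).1 h3
  · intro γ
    obtain ⟨l, hl, rfl⟩ := hX.exists_list γ
    exact ⟨ν l.length, hν _, by rw [map_pow]; exact hL l hl⟩

end Pool.Agent.H11.LGR
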