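import Pool.Agent.H11.LGR.Targets

/-!
# MP_335823_al: row IND (the Noetherian induction)
-/

set_option autoImplicit false

open MvPolynomial Pool.Agent.H87.CLG Pool.Agent.H11.LGR

namespace Pool.Agent.H11.LGR

theorem pf_IND (hSTB : T_STB) (hTWO : T_TWO) (hRDP : T_RDP) (hRD0 : T_RD0) (hFRB : T_FRB)
    (hMNI : T_MNI) (hDMN : T_DMN) : T_IND := by
  intro R M S Γ _ _ _ _ _ n A e hM hI hT he hD
  by_cases hbot : Ex A (⊥ : Submodule R M)
  · obtain ⟨e', he', h⟩ := hbot
    refine ⟨e', he', fun γ => ?_⟩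
    ext m
    have h1 := h γ m
    rw [Submodule.mem_bot, sub_eq_zero] at h1
    exact h1
  exfalso
  have hsbot : Stab A (⊥ : Submodule R M) := by
    refine ⟨fun σ m hm => ?_, fun γ m hm => ?_⟩
    · rw [Submodule.mem_bot] at hm ⊢
      rw [hm, map_zero]
    · rw [Submodule.mem_bot] at hm ⊢
      rw [hm, map_zero]
  have hmax : ∃ L : Submodule R M, Stab A L ∧ ¬ Ex A L ∧ ∀ L', Stab A L' → L < L' → Ex A L' := by
    by_contra hno
    push Not at hno
    choose f hf1 hf2 hf3 using hno
    let c : ℕ → {L : Submodule R M // Stab A L ∧ ¬ Ex A L} :=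
      fun k => Nat.rec ⟨⊥, hsbot, hbot⟩ (fun _ x => ⟨f x.1 x.2.1 x.2.2, hf1 _ _ _, hf3 _ _ _⟩) k
    have hc : ∀ k, (c k).1 < (c (k + 1)).1 := fun k => hf2 _ _ _
    have hmono : StrictMono fun k => (c k).1 := strictMono_nat_of_lt_succ hc
    obtain ⟨N, hN⟩ := hM (fun k => (c k).1) hmono.monotone fun k => (c k).2.1
    have h1 := hN (N + 1) (Nat.le_succ N)
    exact absurd h1 (hc N).ne'
  obtain ⟨L, hL, hLE, hLmax⟩ := hmax
  have hcol : ∀ J : Ideal R, SI A J → J ≤ ann L ∨ col L J ≤ L ∨
      ¬ ((∃ p : ℕ, 0 < p ∧ ∀ m ∈ col L J, (p : R) • m ∈ L) ∨ (TF L ∧ Tor A)) := by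
    intro J hJ
    by_contra hcon
    push Not at hcon
    obtain ⟨h1, h2, h3⟩ := hcon
    obtain ⟨s1, s2, s3, -, -⟩ := hSTB R M S Γ n A L J hL hJ
    have l1 : L < L ⊔ J • ⊤ := by
      refine lt_of_le_of_ne le_sup_left fun heq => h1 fun r hr m => ?_
      rw [heq]
      exact Submodule.mem_sup_right (Submodule.smul_mem_smul hr Submodule.mem_top)
    have l2 : L < col L J := lt_of_le_of_ne s3 fun heq => h2 heq.symm.le
    refine hLE (hTWO R M S Γ n A L J hL (hLmax _ s1 l1) (hLmax _ s2 l2) ?_)
    exact h3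
  have hspan : ∀ p : ℕ, SI A (Ideal.span {(p : R)}) := by
    intro p σ r hr
    rw [Ideal.mem_span_singleton'] at hr ⊢
    obtain ⟨a, rfl⟩ := hr
    exact ⟨A.sR σ a, by rw [map_mul, map_natCast]⟩
  have hp : ∀ p : ℕ, p.Prime → PT p L ∨ ∀ m, (p : R) • m ∈ L → m ∈ L := by
    intro p hp
    rcases hcol _ (hspan p) with h | h | h
    · left
      intro m
      exact h (Ideal.mem_span_singleton_self _) m
    · right
      intro m hm
      refine h fun r hr => ?_
      obtain ⟨a, rfl⟩ := Ideal.mem_span_singleton'.1 hr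
      rw [mul_smul]
      exact L.smul_mem a hm
    · exfalso
      refine h (Or.inl ⟨p, hp.pos, fun m hm => ?_⟩)
      exact hm _ (Ideal.mem_span_singleton_self _)
  -- characteristic p or torsion free
  have hchar : (∃ p : ℕ, p.Prime ∧ PT p L) ∨ TF L := by
    by_cases hex : ∃ p : ℕ, p.Prime ∧ PT p L
    · exact Or.inl hex
    · right
      push Not at hex
      intro k
      induction k using Nat.strong_induction_on with
      | _ k ih =>
        intro m hk hm
        rcases Nat.eq_or_lt_of_le (Nat.succ_le_of_lt hk) with h1 | h1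
        · rw [← h1] at hm
          simpa using hm
        · have hne : k ≠ 1 := by omega
          have hpr := Nat.minFac_prime hne
          obtain ⟨k', hk'⟩ := Nat.minFac_dvd k
          have hk'0 : 0 < k' := by
            rcases Nat.eq_zero_or_pos k' with h | h
            · rw [h, mul_zero] at hk'
              omega
            · exact h
          have hk'k : k' < k := by
            calc k' = 1 * k' := (one_mul _).symm
              _ < k.minFac * k' := Nat.mul_lt_mul_of_pos_right hpr.one_lt hk'0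
              _ = k := hk'.symm
          have h2 : (k.minFac : R) • ((k' : R) • m) ∈ L := by
            rw [← mul_smul, ← Nat.cast_mul, ← hk']
            exact hm
          rcases hp _ hpr with h3 | h3
          · exact absurd h3 (hex _ hpr)
          · exact ih k' hk'k m hk'0 (h3 _ h2)
  have hstar : ∀ J : Ideal R, SI A J → J ≤ ann L ∨ col L J ≤ L := by
    intro J hJ
    rcases hcol J hJ with h | h | h
    · exact Or.inl h
    · exact Or.inr h
    · exfalso
      rcases hchar with ⟨p, hpp, hpt⟩ | htf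
      · exact h (Or.inl ⟨p, hpp.pos, fun m _ => hpt m⟩)
      · exact h (Or.inr ⟨htf, hT⟩)
  -- the radical
  obtain ⟨-, -, -, hann, hrad⟩ := hSTB R M S Γ n A L ⊥ hL (fun σ r hr => by
    rw [Ideal.mem_bot] at hr ⊢
    rw [hr, map_zero])
  have hR : (ann L).IsRadical := by
    obtain ⟨s1, -, -, -, -⟩ := hSTB R M S Γ n A L (ann L).radical hL hrad
    by_contra hnr
    have l1 : L < L ⊔ (ann L).radical • ⊤ := by
      refine lt_of_le_of_ne le_sup_left fun heq => hnr fun r hr m => ?_
      rw [heq]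
      exact Submodule.mem_sup_right (Submodule.smul_mem_smul hr Submodule.mem_top)
    have hE := hLmax _ s1 l1
    rcases hchar with ⟨p, hpp, hpt⟩ | htf
    · obtain ⟨s, hs⟩ := hFRB R M S Γ n A L p hann hI hpp hpt
      exact hLE (hRDP R M S Γ n A L _ p s hL hpp hpt hs hE)
    · exact hLE (hRD0 R M S Γ n A L _ hL htf hT (fun r hr => hr) hE)
  refine hLE ⟨e, he, fun γ m => ?_⟩
  refine hMNI R M S Γ n A L hL hR hstar _ fun P hP => ?_
  exact hDMN R M S Γ n A L e hL hR hD P hP γ m

end Pool.Agent.H11.LGR
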