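import Pool.Agent.H11.LGR.Targets

/-!
# MP_335823_al: row INS (the system on the universal module)
-/

set_option autoImplicit false

open MvPolynomial Pool.Agent.H87.CLG Pool.Agent.H11.LGR

namespace Pool.Agent.H11.LGR

theorem sh_comp {Λ : Type} (σ τ : ℕ → ℕ) (r : PR Λ) : sh (σ ∘ τ) r = sh σ (sh τ r) := by
  change rename (Prod.map (σ ∘ τ) id) r = rename (Prod.map σ id) (rename (Prod.map τ id) r)
  rw [rename_rename]
  rfl

theorem sh_id {Λ : Type} (r : PR Λ) : sh id r = r := by
  change rename (Prod.map id id) r = r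
  rw [Prod.map_id, rename_id]
  rfl

/-- the symmetries of the ring -/
noncomputable def sRh (Λ : Type) : Equiv.Perm ℕ →* (PR Λ →+* PR Λ) where
  toFun π := sh π
  map_one' := by
    apply RingHom.ext
    intro r
    exact sh_id r
  map_mul' π π' := by
    apply RingHom.ext
    intro r
    exact sh_comp π π' r

/-- the symmetries of the free module -/
noncomputable def sMb {n : ℕ} (π : Equiv.Perm ℕ) :
    (Fin n → PR (LL n)) →+ (Fin n → PR (LL n)) where
  toFun f := fun c => sh π (f c)
  map_zero' := by
    funext c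
    exact map_zero _
  map_add' f g := by
    funext c
    exact map_add _ _ _

theorem pf_INS (hACT : T_ACT) : T_INS := by
  intro n ν K hK hPS
  obtain ⟨ρ, hρ⟩ := hACT n K hK.act hK.inv
  have hle : ∀ π : Equiv.Perm ℕ, K.toAddSubgroup ≤ K.toAddSubgroup.comap (sMb π) :=
    fun π f hf => hPS π f hf
  let sM : Equiv.Perm ℕ → AddMonoid.End ((Fin n → PR (LL n)) ⧸ K) :=
    fun π => QuotientAddGroup.map K.toAddSubgroup K.toAddSubgroup (sMb π) (hle π)
  have hsM : ∀ π f, sM π (K.mkQ f) = K.mkQ fun c => sh π (f c) := fun π f => rfl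
  let sMh : Equiv.Perm ℕ →* AddMonoid.End ((Fin n → PR (LL n)) ⧸ K) :=
    { toFun := sM
      map_one' := by
        apply AddMonoidHom.ext
        intro q
        obtain ⟨f, rfl⟩ := K.mkQ_surjective q
        have h1 : (fun c => sh (⇑(1 : Equiv.Perm ℕ)) (f c)) = f := by
          funext c
          exact sh_id _
        have h2 := hsM 1 f
        rw [h1] at h2
        exact h2
      map_mul' := fun π π' => by
        apply AddMonoidHom.ext
        intro q
        obtain ⟨f, rfl⟩ := K.mkQ_surjective q
        change sM (π * π') (K.mkQ f) = sM π (sM π' (K.mkQ f))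
        rw [hsM, hsM, hsM]
        congr 1
        funext c
        exact sh_comp π π' _ }
  have hspan : Submodule.span (PR (LL n))
      (Set.range fun i : Fin n => K.mkQ (Pi.single i 1)) = ⊤ := by
    rw [eq_top_iff]
    intro q _
    obtain ⟨f, rfl⟩ := K.mkQ_surjective q
    have h1 : f = ∑ i, f i • (Pi.single i (1 : PR (LL n)) : Fin n → PR (LL n)) := by
      funext c
      simp [Finset.sum_apply, Pi.single_apply]
    rw [h1, map_sum]
    refine Submodule.sum_mem _ fun i _ => ?_
    rw [map_smul]
    exact Submodule.smul_mem _ _ (Submodule.subset_span ⟨i, rfl⟩)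
  let A : Sys (PR (LL n)) ((Fin n → PR (LL n)) ⧸ K) (Equiv.Perm ℕ) (FreeGroup ℕ) n :=
    { sR := sRh (LL n)
      sM := sMh
      ρ := ρ
      g := fun i => K.mkQ (Pi.single i 1)
      semi := fun π r q => by
        obtain ⟨f, rfl⟩ := K.mkQ_surjective q
        change sM π (r • K.mkQ f) = sh π r • sM π (K.mkQ f)
        rw [← map_smul, hsM, hsM, ← map_smul]
        congr 1
        funext c
        simp only [Pi.smul_apply, smul_eq_mul, map_mul]
      span := hspan
      fix := fun π i => by
        change sM π (K.mkQ (Pi.single i 1)) = K.mkQ (Pi.single i 1)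
        rw [hsM]
        congr 1
        funext c
        rw [Pi.single_apply]
        split_ifs
        · exact map_one _
        · exact map_zero _ }
  refine ⟨A, ⟨fun π r => rfl, fun π f => rfl, hρ⟩, fun l hl => ?_⟩
  rw [← map_pow]
  apply LinearMap.ext
  intro q
  obtain ⟨f, rfl⟩ := K.mkQ_surjective q
  have h1 := hρ (l.prod ^ ν l.length).toWord f
  rw [FreeGroup.mk_toWord] at h1
  change ρ (l.prod ^ ν l.length) (K.mkQ f) = K.mkQ f
  rw [h1, ← sub_eq_zero, ← map_sub]
  have h2 := hK.law l hl (l.prod ^ ν l.length).toWord FreeGroup.mk_toWord f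
  exact (Submodule.Quotient.mk_eq_zero K).2 h2

end Pool.Agent.H11.LGR
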