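import Pool.Agent.H11.LGR.Targets

/-!
# MP_335823_al: row SPA (Burnside's theorem on irreducible groups)
-/

set_option autoImplicit false

open MvPolynomial Pool.Agent.H87.CLG Pool.Agent.H11.LGR

namespace Pool.Agent.H11.LGR

theorem pf_SPA : T_SPA := by
  classical
  intro F W Γ _ _ _ _ _ _ ρ hW hirr f
  let A : Subalgebra F (Module.End F W) := Algebra.adjoin F (Set.range ρ)
  have hA : ∀ a : Module.End F W, a ∈ A → a ∈ Submodule.span F (Set.range ρ) := by
    intro a ha
    have h1 : a ∈ Subalgebra.toSubmodule A := ha
    rw [Algebra.adjoin_eq_span] at h1
    have h2 : (Submonoid.closure (Set.range ρ) : Set (Module.End F W)) ⊆ Set.range ρ := by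
      have h3 : Submonoid.closure (Set.range ρ) ≤ MonoidHom.mrange ρ :=
        Submonoid.closure_le.2 fun x hx => hx
      exact h3
    exact Submodule.span_mono h2 h1
  have hρA : ∀ g, ρ g ∈ A := fun g => Algebra.subset_adjoin ⟨g, rfl⟩
  have hsimple : IsSimpleModule A W := by
    refine { exists_pair_ne := ⟨⊥, ⊤, bot_ne_top⟩, eq_bot_or_eq_top := fun U => ?_ }
    let V : Submodule F W :=
      { carrier := U
        add_mem' := U.add_mem
        zero_mem' := U.zero_mem
        smul_mem' := fun c w hw => by
          have h := U.smul_mem (algebraMap F A c) hw
          have h2 : (algebraMap F A c) • w = c • w := rfl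
          rw [h2] at h
          exact h }
    have hV : ∀ g, ∀ u ∈ V, ρ g u ∈ V := fun g u hu => U.smul_mem (⟨ρ g, hρA g⟩ : A) hu
    rcases hirr V hV with h | h
    · left
      rw [eq_bot_iff]
      intro w hw
      have : w ∈ V := hw
      rw [h] at this
      exact this
    · right
      rw [eq_top_iff]
      intro w _
      have : w ∈ V := by
        rw [h]
        trivial
      exact this
  have hscal : ∀ φ : Module.End A W, ∃ c : F, ∀ w, φ w = c • w := by
    intro φ
    let φ' : Module.End F W :=
      { toFun := φ
        map_add' := φ.map_add
        map_smul' := fun c w => by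
          have h := φ.map_smul (algebraMap F A c) w
          exact h }
    obtain ⟨c, hc⟩ := Module.End.exists_eigenvalue φ'
    refine ⟨c, ?_⟩
    obtain ⟨v, hv⟩ := hc.exists_hasEigenvector
    let U : Submodule A W :=
      { carrier := {w | φ w = c • w}
        add_mem' := fun {a b} ha hb => by
          change φ (a + b) = c • (a + b)
          rw [map_add, show φ a = c • a from ha, show φ b = c • b from hb, smul_add]
        zero_mem' := by
          change φ 0 = c • 0
          rw [map_zero, smul_zero]
        smul_mem' := fun a w hw => by
          change φ (a • w) = c • (a • w)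
          rw [map_smul, show φ w = c • w from hw]
          exact (a : Module.End F W).map_smul c w }
    rcases hsimple.eq_bot_or_eq_top U with h | h
    · exfalso
      have h1 : v ∈ U := hv.apply_eq_smul
      rw [h] at h1
      exact hv.2 h1
    · intro w
      have h1 : w ∈ U := by
        rw [h]
        trivial
      exact h1
  let f' : Module.End (Module.End A W) W :=
    { toFun := f
      map_add' := f.map_add
      map_smul' := fun φ w => by
        obtain ⟨c, hc⟩ := hscal φ
        change f (φ w) = φ (f w)
        rw [hc, hc, map_smul] }
  have hb := Module.finBasis F W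
  obtain ⟨r, hr⟩ := jacobson_density (R := A) f' (Finset.univ.image hb)
  have hfr : f = (r : Module.End F W) := by
    apply hb.ext
    intro i
    exact hr _ (Finset.mem_image_of_mem _ (Finset.mem_univ i))
  rw [hfr]
  exact hA _ r.2

end Pool.Agent.H11.LGR
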