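import Pool.Agent.H11.LGR.Targets

/-!
# MP_335823_al: row UTH (the theorem on groups of automorphisms of finitely generated modules)
-/

set_option autoImplicit false

open MvPolynomial Pool.Agent.H87.CLG Pool.Agent.H11.LGR

namespace Pool.Agent.H11.LGR

universe u v w

theorem GX.exists_list {Γ : Type u} [Group Γ] {X : Set Γ} (hX : GX X) (γ : Γ) :
    ∃ l : List Γ, (∀ x ∈ l, x ∈ X) ∧ l.prod = γ := by
  have hγ : γ ∈ Subgroup.closure X := by
    rw [hX.gen]
    exact Subgroup.mem_top γ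
  induction hγ using Subgroup.closure_induction with
  | mem x hx => exact ⟨[x], by simpa using hx, by simp⟩
  | one => exact ⟨[], by simp, by simp⟩
  | mul a b _ _ ha hb =>
    obtain ⟨l, h1, h2⟩ := ha
    obtain ⟨l', h3, h4⟩ := hb
    refine ⟨l ++ l', fun x hx => ?_, by rw [List.prod_append, h2, h4]⟩
    rcases List.mem_append.1 hx with h | h
    · exact h1 x h
    · exact h3 x h
  | inv a _ ha =>
    obtain ⟨l, h1, h2⟩ := ha
    refine ⟨(l.map fun x => x⁻¹).reverse, fun x hx => ?_, ?_⟩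
    · rw [List.mem_reverse, List.mem_map] at hx
      obtain ⟨y, hy, rfl⟩ := hx
      exact hX.inv y (h1 y hy)
    · rw [← List.prod_inv_reverse, h2]

theorem pf_UTH (hIND : T_IND) (hDME : T_DME) (hGXF : T_GXF) (hINS : T_INS) (hUAC : T_UAC)
    (hUNV : T_UNV) (hKER : T_KER.{u, v, w}) : T_UTH.{u, v, w} := by
  intro n ν hν
  obtain ⟨K0, hK0, hPS, hmin⟩ := hUNV n ν
  obtain ⟨A, hA, hLX⟩ := hINS n ν K0 hK0 hPS
  obtain ⟨hM, hI⟩ := hUAC n K0 A hA hPS
  obtain ⟨e0, he0, h0⟩ := hDME n ν hν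
  obtain ⟨hD, hT⟩ := h0 _ _ _ _ A XF hGXF hLX
  obtain ⟨e, he, hex⟩ := hIND _ _ _ _ n A e0 hM hI hT he0 hD
  refine ⟨e, he, ?_⟩
  intro Γ R M _ _ _ _ g ρ X hg hX hL γ
  obtain ⟨l, hl, rfl⟩ := hX.exists_list γ
  set x : ℕ → Γ := fun i => l.getD i 1 with hx
  have hxX : ∀ i, x i ∈ X := by
    intro i
    rw [hx]
    rcases Nat.lt_or_ge i l.length with h | h
    · simp only [List.getD_eq_getElem _ _ h]
      exact hl _ (List.getElem_mem h)
    · simp only [List.getD_eq_default _ _ h]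
      exact hX.one
  obtain ⟨K, hK, hker⟩ := hKER n ν Γ R M g ρ X x hg hX hL hxX
  set w0 : FreeGroup ℕ := ((List.range l.length).map FreeGroup.of).prod with hw0
  have h1 : FreeGroup.lift x w0 = l.prod := by
    rw [hw0, map_list_prod, List.map_map]
    congr 1
    have h2 : (⇑(FreeGroup.lift x) ∘ FreeGroup.of) = x := by
      funext i
      simp
    rw [h2]
    apply List.ext_getElem
    · simp
    · intro i hi1 hi2
      have h3 := List.getD_eq_getElem l (1 : Γ) hi2
      simp only [List.getElem_map, List.getElem_range, hx]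
      exact h3
  have h2 : ∀ f, ev (w0 ^ e).toWord f - f ∈ K := by
    intro f
    apply hmin K hK
    have h3 := hA.hρ (w0 ^ e).toWord f
    rw [FreeGroup.mk_toWord, hex w0] at h3
    have h4 : K0.mkQ (ev (w0 ^ e).toWord f - f) = 0 := by
      rw [map_sub, ← h3]
      simp
    rw [← Submodule.ker_mkQ K0]
    exact h4
  have h3 := hker _ h2
  rw [FreeGroup.mk_toWord, map_pow, h1] at h3
  exact h3

end Pool.Agent.H11.LGR
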