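import Pool.Agent.H46.CLG.HIG
import Pool.Agent.H65.CLG.MOR
import Pool.Agent.H79.CLG.RWO
import Pool.Agent.H86.CLG.LID
import Pool.Agent.H61.CLG.LEM
import Pool.Agent.H86.CLG.LEQ
import Pool.Agent.H36.CLG.ACM
import Pool.Agent.H89.CLG.ACI
import Pool.Agent.H1.LGR.SPN
import Pool.Agent.H11.LGR.SPA
import Pool.Agent.H1.LGR.TRF
import Pool.Agent.H72.LGR.NDG
import Pool.Agent.H41.LGR.SIM
import Pool.Agent.H94.LGR.DIE
import Pool.Agent.H79.LGR.SIB
import Pool.Agent.H72.LGR.CMP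
import Pool.Agent.H94.LGR.SCH
import Pool.Agent.H72.LGR.UNP
import Pool.Agent.H60.LGR.FAC
import Pool.Agent.H59.LGR.FLD
import Pool.Agent.H12.LGR.DOM
import Pool.Agent.H72.LGR.STB
import Pool.Agent.H60.LGR.TWO
import Pool.Agent.H59.LGR.RDP
import Pool.Agent.H50.LGR.RD0
import Pool.Agent.H5.LGR.FRB
import Pool.Agent.H41.LGR.MNR
import Pool.Agent.H59.LGR.MNI
import Pool.Agent.H5.LGR.DMN
import Pool.Agent.H11.LGR.IND
import Pool.Agent.H11.LGR.DME
import Pool.Agent.H72.LGR.ACT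
import Pool.Agent.H5.LGR.UNV
import Pool.Agent.H94.LGR.KER
import Pool.Agent.H72.LGR.GXF
import Pool.Agent.H11.LGR.INS
import Pool.Agent.H72.LGR.UAC
import Pool.Agent.H11.LGR.UTH
import Pool.Agent.H86.LGR.VRB
import Pool.Agent.H87.CLG.Asm

/-!
# MP_335823_al: groups of automorphisms of finitely generated modules, assembly of the rows
-/

set_option autoImplicit false

open Pool.Agent.H87.CLG

namespace Pool.Agent.H11.LGR.All

open Pool.Agent.H11.LGR

universe u v w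

theorem acm : T_ACM :=
  Pool.Agent.H36.CLG.pf_ACM Pool.Agent.H46.CLG.pf_HIG Pool.Agent.H65.CLG.pf_MOR
    Pool.Agent.H86.CLG.pf_LID Pool.Agent.H61.CLG.pf_LEM
    (Pool.Agent.H86.CLG.pf_LEQ Pool.Agent.H79.CLG.pf_RWO)

theorem aci : T_ACI := Pool.Agent.H89.CLG.pf_ACI acm

theorem sim : T_SIM :=
  Pool.Agent.H41.LGR.pf_SIM Pool.Agent.H1.LGR.pf_SPN pf_SPA
    Pool.Agent.H1.LGR.pf_TRF Pool.Agent.H72.LGR.pf_NDG

theorem cmp : T_CMP :=
  Pool.Agent.H72.LGR.pf_CMP (Pool.Agent.H79.LGR.pf_SIB sim Pool.Agent.H94.LGR.pf_DIE)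

theorem fac : T_FAC :=
  Pool.Agent.H60.LGR.pf_FAC cmp Pool.Agent.H94.LGR.pf_SCH Pool.Agent.H72.LGR.pf_UNP

theorem dom : T_DOM := Pool.Agent.H12.LGR.pf_DOM (Pool.Agent.H59.LGR.pf_FLD fac)

theorem ind : T_IND :=
  pf_IND Pool.Agent.H72.LGR.pf_STB Pool.Agent.H60.LGR.pf_TWO Pool.Agent.H59.LGR.pf_RDP
    Pool.Agent.H50.LGR.pf_RD0 Pool.Agent.H5.LGR.pf_FRB
    (Pool.Agent.H59.LGR.pf_MNI Pool.Agent.H41.LGR.pf_MNR) Pool.Agent.H5.LGR.pf_DMN

theorem uth : T_UTH.{u, v, w} :=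
  pf_UTH ind (pf_DME dom) Pool.Agent.H72.LGR.pf_GXF
    (pf_INS Pool.Agent.H72.LGR.pf_ACT) (Pool.Agent.H72.LGR.pf_UAC acm aci)
    Pool.Agent.H5.LGR.pf_UNV Pool.Agent.H94.LGR.pf_KER

theorem vrb : T_VRB.{u, v, w} := Pool.Agent.H86.LGR.pf_VRB uth

/-- the form used by the assembly -/
theorem core : T_CORE.{u, v, w} := by
  intro n ν hν
  obtain ⟨e, he, h⟩ := uth.{u, v, w} n ν hν
  refine ⟨e, he, ?_⟩
  intro G _ R _ M _ _ ρ X h1 h2 h3 h4 h5 ⟨s, hs⟩ g
  have hGX : GX X := ⟨h1, h2, fun g x hx => h3 x hx g, h4⟩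
  let τ : (M ≃ₗ[R] M) →* Module.End R M :=
    { toFun := fun f => f.toLinearMap
      map_one' := rfl
      map_mul' := fun _ _ => rfl }
  have hLX : LX ν X (τ.comp ρ) := by
    intro l hl
    have h6 := h5 l.length (fun i => l.getD i 1) (fun i => by
      rcases Nat.lt_or_ge i l.length with hi | hi
      · simp only [List.getD_eq_getElem _ _ hi]
        exact hl _ (List.getElem_mem hi)
      · simp only [List.getD_eq_default _ _ hi]
        exact h1)
    have h7 : (List.range l.length).map (fun i => l.getD i 1) = l := by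
      apply List.ext_getElem
      · simp
      · intro i hi1 hi2
        simp only [List.getElem_map, List.getElem_range]
        exact List.getD_eq_getElem l (1 : G) hi2
    rw [h7] at h6
    rw [← map_pow, h6, map_one]
  have h8 := h G R M s (τ.comp ρ) X hs hGX hLX g
  apply LinearEquiv.toLinearMap_injective
  exact h8

end Pool.Agent.H11.LGR.All
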