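import Pool.Agent.H87.CLG.Targets

/-!
# Groups of automorphisms of finitely generated modules over commutative rings: definitions
(MP_335823_al)
-/

set_option autoImplicit false

open MvPolynomial Pool.Agent.H87.CLG

namespace Pool.Agent.H11.LGR

universe u v

/-- `X` is a generating set which is closed under inverses and conjugation and contains `1` -/
structure GX {Γ : Type u} [Group Γ] (X : Set Γ) : Prop where
  one : 1 ∈ X
  inv : ∀ x ∈ X, x⁻¹ ∈ X
  conj : ∀ g, ∀ x ∈ X, g * x * g⁻¹ ∈ X
  gen : Subgroup.closure X = ⊤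

/-- a product of `k` elements of `X` has order dividing `ν k` in the representation `ρ` -/
def LX {Γ : Type u} {A : Type v} [Group Γ] [Monoid A] (ν : ℕ → ℕ) (X : Set Γ) (ρ : Γ →* A) :
    Prop :=
  ∀ l : List Γ, (∀ x ∈ l, x ∈ X) → ρ l.prod ^ ν l.length = 1

/-- the representation `ρ` has no proper nonzero invariant subspaces -/
def Irr {F W Γ : Type} [Field F] [AddCommGroup W] [Module F W] [Group Γ]
    (ρ : Γ →* Module.End F W) : Prop :=
  ∀ U : Submodule F W, (∀ g, ∀ u ∈ U, ρ g u ∈ U) → U = ⊥ ∨ U = ⊤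

/-! ### Systems: a ring and a module with symmetries, and a group of automorphisms -/

/-- `S` acts on the ring `R` and semilinearly on the module `M` with the `S`-invariant generators
`g i`, and `Γ` acts `R`-linearly on `M` -/
structure Sys (R M S Γ : Type) [CommRing R] [AddCommGroup M] [Module R M] [Group S] [Group Γ]
    (n : ℕ) where
  sR : S →* (R →+* R)
  sM : S →* AddMonoid.End M
  ρ : Γ →* Module.End R M
  g : Fin n → M
  semi : ∀ σ r m, sM σ (r • m) = sR σ r • sM σ m
  span : Submodule.span R (Set.range g) = ⊤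
  fix : ∀ σ i, sM σ (g i) = g i

/-- the elements which are multiplied into `L` by `J` -/
def col {R M : Type} [CommRing R] [AddCommGroup M] [Module R M] (L : Submodule R M)
    (J : Ideal R) : Submodule R M where
  carrier := {m | ∀ r ∈ J, r • m ∈ L}
  add_mem' := fun ha hb r hr => by
    rw [smul_add]
    exact L.add_mem (ha r hr) (hb r hr)
  zero_mem' := fun r _ => by
    rw [smul_zero]
    exact L.zero_mem
  smul_mem' := fun c x hx r hr => by
    rw [smul_comm]
    exact L.smul_mem c (hx r hr)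

/-- the annihilator of `M / L` -/
def ann {R M : Type} [CommRing R] [AddCommGroup M] [Module R M] (L : Submodule R M) :
    Ideal R where
  carrier := {r | ∀ m : M, r • m ∈ L}
  add_mem' := fun ha hb m => by
    rw [add_smul]
    exact L.add_mem (ha m) (hb m)
  zero_mem' := fun m => by
    rw [zero_smul]
    exact L.zero_mem
  smul_mem' := fun c x hx m => by
    rw [smul_eq_mul, mul_smul]
    exact L.smul_mem c (hx m)

/-- `M / L` is torsion free as an abelian group -/
def TF {R M : Type} [CommRing R] [AddCommGroup M] [Module R M] (L : Submodule R M) : Prop :=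
  ∀ (k : ℕ) (m : M), 0 < k → (k : R) • m ∈ L → m ∈ L

/-- `p M ⊆ L` -/
def PT {R M : Type} [CommRing R] [AddCommGroup M] [Module R M] (p : ℕ) (L : Submodule R M) :
    Prop :=
  ∀ m : M, (p : R) • m ∈ L

section

variable {R M S Γ : Type} [CommRing R] [AddCommGroup M] [Module R M] [Group S] [Group Γ] {n : ℕ}

/-- submodules which are stable under `S` and `Γ` -/
structure Stab (A : Sys R M S Γ n) (L : Submodule R M) : Prop where
  s : ∀ σ, ∀ m ∈ L, A.sM σ m ∈ L
  r : ∀ γ, ∀ m ∈ L, A.ρ γ m ∈ L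

/-- ideals which are stable under `S` -/
def SI (A : Sys R M S Γ n) (J : Ideal R) : Prop := ∀ σ, ∀ r ∈ J, A.sR σ r ∈ J

/-- `Γ` acts on `M / L` with finite exponent -/
def Ex (A : Sys R M S Γ n) (L : Submodule R M) : Prop :=
  ∃ e : ℕ, 0 < e ∧ ∀ γ m, A.ρ (γ ^ e) m - m ∈ L

/-- the elements of `Γ` act with finite order -/
def Tor (A : Sys R M S Γ n) : Prop := ∀ γ, ∃ k : ℕ, 0 < k ∧ A.ρ (γ ^ k) = 1

/-- ascending chain condition for stable submodules -/
def ACCM (A : Sys R M S Γ n) : Prop :=
  ∀ c : ℕ → Submodule R M, Monotone c → (∀ i, Stab A (c i)) → ∃ N, ∀ j, N ≤ j → c j = c N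

/-- ascending chain condition for stable ideals -/
def ACCI (A : Sys R M S Γ n) : Prop :=
  ∀ c : ℕ → Ideal R, Monotone c → (∀ i, SI A (c i)) → ∃ N, ∀ j, N ≤ j → c j = c N

/-- `Γ` acts with exponent `e` on all `Γ`-invariant quotients which are torsion free modules over
the quotient by a prime ideal -/
def DomE (A : Sys R M S Γ n) (e : ℕ) : Prop :=
  ∀ (P : Ideal R) (U : Submodule R M), P.IsPrime → (∀ γ, ∀ m ∈ U, A.ρ γ m ∈ U) →
    (∀ r ∈ P, ∀ m, r • m ∈ U) → (∀ (r : R) (m : M), r • m ∈ U → r ∈ P ∨ m ∈ U) →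
    ∀ γ m, A.ρ (γ ^ e) m - m ∈ U

end

/-- the determinant of the columns `k j` and the rows `I i` -/
def mn {R : Type} [CommRing R] {s n : ℕ} (k : Fin s → Fin n → R) (I : Fin s → Fin n) : R :=
  Matrix.det (Matrix.of fun a b => k b (I a))

/-! ### The universal module -/

/-- labels of the variables: entries of the matrices of `x i` (`true`) and its inverse -/
abbrev LL (n : ℕ) : Type := Bool × Fin n × Fin n

/-- the generic matrix of `x i` or its inverse -/
noncomputable def mt {n : ℕ} (i : ℕ) (b : Bool) : Matrix (Fin n) (Fin n) (PR (LL n)) :=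
  Matrix.of fun r c => X (i, (b, r, c))

/-- the action of a word -/
noncomputable def ev {n : ℕ} (l : List (ℕ × Bool)) (f : Fin n → PR (LL n)) :
    Fin n → PR (LL n) :=
  l.foldr (fun x h => (mt x.1 x.2).mulVec h) f

/-- `1` and the conjugates of the free generators and their inverses -/
def XF : Set (FreeGroup ℕ) :=
  {w | w = 1 ∨ ∃ (g : FreeGroup ℕ) (i : ℕ), w = g * FreeGroup.of i * g⁻¹ ∨
    w = g * (FreeGroup.of i)⁻¹ * g⁻¹}

/-- the submodules with an action of the free group on the quotient which satisfies the laws -/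
structure Adm (ν : ℕ → ℕ) (n : ℕ) (K : Submodule (PR (LL n)) (Fin n → PR (LL n))) : Prop where
  act : ∀ i b, ∀ f ∈ K, (mt i b).mulVec f ∈ K
  inv : ∀ i b f, (mt i b).mulVec ((mt i (!b)).mulVec f) - f ∈ K
  law : ∀ l : List (FreeGroup ℕ), (∀ x ∈ l, x ∈ XF) → ∀ w : List (ℕ × Bool),
    FreeGroup.mk w = l.prod ^ ν l.length → ∀ f, ev w f - f ∈ K

/-- stable under permutations of the index -/
def PS {n : ℕ} (K : Submodule (PR (LL n)) (Fin n → PR (LL n))) : Prop :=
  ∀ π : Equiv.Perm ℕ, ∀ f ∈ K, (fun c => sh π (f c)) ∈ K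

/-- the system on the quotient by `K` -/
structure Univ (n : ℕ) (K : Submodule (PR (LL n)) (Fin n → PR (LL n)))
    (A : Sys (PR (LL n)) ((Fin n → PR (LL n)) ⧸ K) (Equiv.Perm ℕ) (FreeGroup ℕ) n) : Prop where
  hR : ∀ π r, A.sR π r = sh π r
  hM : ∀ π f, A.sM π (K.mkQ f) = K.mkQ fun c => sh π (f c)
  hρ : ∀ l f, A.ρ (FreeGroup.mk l) (K.mkQ f) = K.mkQ (ev l f)

end Pool.Agent.H11.LGR
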