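import Pool.Agent.H11.LGR.Defs

/-!
# Groups of automorphisms of finitely generated modules over commutative rings: targets
(MP_335823_al)
-/

set_option autoImplicit false

open MvPolynomial Pool.Agent.H87.CLG

namespace Pool.Agent.H11.LGR

universe u v w

/-! ## F. Fields -/

/-- SPN: the span of the products of `dim A` elements of `X` -/
def T_SPN : Prop := ∀ (F A Γ : Type) [Field F] [Ring A] [Algebra F A] [FiniteDimensional F A]
  [Group Γ] (X : Set Γ) (ρ : Γ →* A), GX X → ∀ (N : ℕ), Module.finrank F A ≤ N → ∀ g : Γ,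
  ρ g ∈ Submodule.span F {a | ∃ l : List Γ, (∀ x ∈ l, x ∈ X) ∧ l.length = N ∧ ρ l.prod = a}

/-- SPA: the span of an irreducible group -/
def T_SPA : Prop := ∀ (F W Γ : Type) [Field F] [IsAlgClosed F] [AddCommGroup W] [Module F W]
  [FiniteDimensional F W] [Group Γ] (ρ : Γ →* Module.End F W), Nontrivial W → Irr ρ →
  ∀ f : Module.End F W, f ∈ Submodule.span F (Set.range ρ)

/-- TRF: the traces of the endomorphisms of order `m` -/
def T_TRF : Prop := ∀ (F : Type) [Field F] [IsAlgClosed F] (m n : ℕ), 0 < m →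
  ∃ T : Finset F, T.card ≤ (m + 1) ^ n ∧ ∀ (W : Type) [AddCommGroup W] [Module F W]
  [FiniteDimensional F W] (f : Module.End F W), Module.finrank F W ≤ n → f ^ m = 1 →
  LinearMap.trace F W f ∈ T

/-- NDG: the trace form is nondegenerate -/
def T_NDG : Prop := ∀ (F W : Type) [Field F] [AddCommGroup W] [Module F W]
  [FiniteDimensional F W] (f : Module.End F W), (∀ g, LinearMap.trace F W (f * g) = 0) → f = 0

/-- SIM: the generators in an irreducible representation -/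
def T_SIM : Prop := ∀ (n m : ℕ), 0 < m → ∃ b : ℕ, ∀ (F W Γ : Type) [Field F] [IsAlgClosed F]
  [AddCommGroup W] [Module F W] [FiniteDimensional F W] [Group Γ] (X : Set Γ)
  (ρ : Γ →* Module.End F W), GX X → Module.finrank F W ≤ n → Irr ρ →
  (∀ l : List Γ, (∀ x ∈ l, x ∈ X) → l.length = n ^ 2 + 1 → ρ l.prod ^ m = 1) →
  (ρ '' X).Finite ∧ (ρ '' X).ncard ≤ b

/-- DIE: Dietzmann's lemma -/
def T_DIE : Prop := ∀ (b m : ℕ), 0 < m → ∃ B : ℕ, 0 < B ∧ ∀ (Γ : Type) [Group Γ] (X : Set Γ),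
  GX X → X.Finite → X.ncard ≤ b → (∀ x ∈ X, x ^ m = 1) → Finite Γ ∧ Nat.card Γ ≤ B

/-- SIB: the image of an irreducible representation is finite -/
def T_SIB : Prop := ∀ (n : ℕ) (ν : ℕ → ℕ), (∀ k, 0 < ν k) → ∃ B : ℕ, 0 < B ∧
  ∀ (F W Γ : Type) [Field F] [IsAlgClosed F] [AddCommGroup W] [Module F W]
  [FiniteDimensional F W] [Group Γ] (X : Set Γ) (ρ : Γ →* Module.End F W), GX X → LX ν X ρ →
  Module.finrank F W ≤ n → Irr ρ → ρ.ker.index ≠ 0 ∧ ρ.ker.index ≤ B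

/-- CMP: a normal unipotent subgroup of bounded index -/
def T_CMP : Prop := ∀ (n : ℕ) (ν : ℕ → ℕ), (∀ k, 0 < ν k) → ∃ B : ℕ, 0 < B ∧
  ∀ (F W Γ : Type) [Field F] [IsAlgClosed F] [AddCommGroup W] [Module F W]
  [FiniteDimensional F W] [Group Γ] (X : Set Γ) (ρ : Γ →* Module.End F W), GX X → LX ν X ρ →
  Module.finrank F W ≤ n → ∃ U : Subgroup Γ, U.Normal ∧ U.index ≠ 0 ∧ U.index ≤ B ∧
  ∀ u ∈ U, (ρ u - 1) ^ Module.finrank F W = 0

/-- SCH: generators of a subgroup of finite index -/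
def T_SCH : Prop := ∀ (Γ : Type) [Group Γ] (X : Set Γ) (U : Subgroup Γ) (B : ℕ), GX X →
  U.index ≠ 0 → U.index ≤ B →
  U ≤ Subgroup.closure {u | u ∈ U ∧ ∃ l : List Γ, (∀ x ∈ l, x ∈ X) ∧ l.length = 2 * B + 1 ∧
    l.prod = u}

/-- UNP: unipotent elements of finite order -/
def T_UNP : Prop := ∀ (F A : Type) [Field F] [Ring A] [Algebra F A] (u : A) (n : ℕ),
  (u - 1) ^ n = 0 → (∀ m : ℕ, (m : F) ≠ 0 → u ^ m = 1 → u = 1) ∧
  ∀ p : ℕ, p.Prime → CharP F p → u ^ p ^ n = 1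

/-- FAC: bounded exponent, algebraically closed fields -/
def T_FAC : Prop := ∀ (n : ℕ) (ν : ℕ → ℕ), (∀ k, 0 < ν k) → ∃ e : ℕ, 0 < e ∧
  ∀ (F W Γ : Type) [Field F] [IsAlgClosed F] [AddCommGroup W] [Module F W]
  [FiniteDimensional F W] [Group Γ] (X : Set Γ) (ρ : Γ →* Module.End F W), GX X → LX ν X ρ →
  Module.finrank F W ≤ n → ∀ γ, ρ (γ ^ e) = 1

/-- FLD: bounded exponent, all fields -/
def T_FLD : Prop := ∀ (n : ℕ) (ν : ℕ → ℕ), (∀ k, 0 < ν k) → ∃ e : ℕ, 0 < e ∧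
  ∀ (F W Γ : Type) [Field F] [AddCommGroup W] [Module F W] [Group Γ] (X : Set Γ)
  (ρ : Γ →* Module.End F W) (g : Fin n → W), Submodule.span F (Set.range g) = ⊤ → GX X →
  LX ν X ρ → ∀ γ, ρ (γ ^ e) = 1

/-- DOM: bounded exponent, torsion free modules over domains -/
def T_DOM : Prop := ∀ (n : ℕ) (ν : ℕ → ℕ), (∀ k, 0 < ν k) → ∃ e : ℕ, 0 < e ∧
  ∀ (R Q Γ : Type) [CommRing R] [AddCommGroup Q] [Module R Q] [Group Γ] (P : Ideal R)
  (X : Set Γ) (ρ : Γ →* Module.End R Q) (g : Fin n → Q), P.IsPrime →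
  Submodule.span R (Set.range g) = ⊤ → (∀ r ∈ P, ∀ q : Q, r • q = 0) →
  (∀ (r : R) (q : Q), r • q = 0 → r ∈ P ∨ q = 0) → GX X → LX ν X ρ → ∀ γ, ρ (γ ^ e) = 1

/-! ## C. The induction -/

/-- STB: stable submodules and ideals -/
def T_STB : Prop := ∀ (R M S Γ : Type) [CommRing R] [AddCommGroup M] [Module R M] [Group S]
  [Group Γ] (n : ℕ) (A : Sys R M S Γ n) (L : Submodule R M) (J : Ideal R), Stab A L → SI A J →
  Stab A (L ⊔ J • ⊤) ∧ Stab A (col L J) ∧ L ≤ col L J ∧ SI A (ann L) ∧ SI A (ann L).radical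

/-- TWO: two quotients -/
def T_TWO : Prop := ∀ (R M S Γ : Type) [CommRing R] [AddCommGroup M] [Module R M] [Group S]
  [Group Γ] (n : ℕ) (A : Sys R M S Γ n) (L : Submodule R M) (J : Ideal R), Stab A L →
  Ex A (L ⊔ J • ⊤) → Ex A (col L J) →
  ((∃ p : ℕ, 0 < p ∧ ∀ m ∈ col L J, (p : R) • m ∈ L) ∨ (TF L ∧ Tor A)) → Ex A L

/-- RDP: nil ideals of bounded index in characteristic `p` -/
def T_RDP : Prop := ∀ (R M S Γ : Type) [CommRing R] [AddCommGroup M] [Module R M] [Group S]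
  [Group Γ] (n : ℕ) (A : Sys R M S Γ n) (L : Submodule R M) (J : Ideal R) (p s : ℕ), Stab A L →
  p.Prime → PT p L → (∀ r ∈ J, r ^ p ^ s ∈ ann L) → Ex A (L ⊔ J • ⊤) → Ex A L

/-- RD0: nil ideals, torsion free modules -/
def T_RD0 : Prop := ∀ (R M S Γ : Type) [CommRing R] [AddCommGroup M] [Module R M] [Group S]
  [Group Γ] (n : ℕ) (A : Sys R M S Γ n) (L : Submodule R M) (J : Ideal R), Stab A L →
  TF L → Tor A → (∀ r ∈ J, ∃ k : ℕ, r ^ k ∈ ann L) → Ex A (L ⊔ J • ⊤) → Ex A L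

/-- FRB: the radical is nil of bounded index in characteristic `p` -/
def T_FRB : Prop := ∀ (R M S Γ : Type) [CommRing R] [AddCommGroup M] [Module R M] [Group S]
  [Group Γ] (n : ℕ) (A : Sys R M S Γ n) (L : Submodule R M) (p : ℕ), SI A (ann L) → ACCI A →
  p.Prime → PT p L → ∃ s : ℕ, ∀ r ∈ (ann L).radical, r ^ p ^ s ∈ ann L

/-- MNR: the minors -/
def T_MNR : Prop := ∀ (R M : Type) [CommRing R] [AddCommGroup M] [Module R M] (n s : ℕ)
  (g : Fin n → M) (L : Submodule R M) (k : Fin s → Fin n → R) (v : Fin n → R)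
  (I : Fin s → Fin n), (∀ j, ∑ i, k j i • g i ∈ L) →
  (∀ i : Fin n, mn (Fin.snoc k v : Fin (s + 1) → Fin n → R)
    (Fin.snoc I i : Fin (s + 1) → Fin n) ∈ ann L) →
  mn k I • ∑ i, v i • g i ∈ L

/-- MNI: localization at the minimal primes is injective -/
def T_MNI : Prop := ∀ (R M S Γ : Type) [CommRing R] [AddCommGroup M] [Module R M] [Group S]
  [Group Γ] (n : ℕ) (A : Sys R M S Γ n) (L : Submodule R M), Stab A L → (ann L).IsRadical →
  (∀ J : Ideal R, SI A J → J ≤ ann L ∨ col L J ≤ L) → ∀ u : M,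
  (∀ P ∈ (ann L).minimalPrimes, ∃ t : R, t ∉ P ∧ t • u ∈ L) → u ∈ L

/-- DMN: the localization at a minimal prime -/
def T_DMN : Prop := ∀ (R M S Γ : Type) [CommRing R] [AddCommGroup M] [Module R M] [Group S]
  [Group Γ] (n : ℕ) (A : Sys R M S Γ n) (L : Submodule R M) (e : ℕ), Stab A L →
  (ann L).IsRadical → DomE A e → ∀ P ∈ (ann L).minimalPrimes, ∀ γ m,
  ∃ t : R, t ∉ P ∧ t • (A.ρ (γ ^ e) m - m) ∈ L

/-- IND: the induction -/
def T_IND : Prop := ∀ (R M S Γ : Type) [CommRing R] [AddCommGroup M] [Module R M] [Group S]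
  [Group Γ] (n : ℕ) (A : Sys R M S Γ n) (e : ℕ), ACCM A → ACCI A → Tor A → 0 < e → DomE A e →
  ∃ e' : ℕ, 0 < e' ∧ ∀ γ, A.ρ (γ ^ e') = 1

/-- DME: the exponent for the prime quotients -/
def T_DME : Prop := ∀ (n : ℕ) (ν : ℕ → ℕ), (∀ k, 0 < ν k) → ∃ e : ℕ, 0 < e ∧
  ∀ (R M S Γ : Type) [CommRing R] [AddCommGroup M] [Module R M] [Group S] [Group Γ]
  (A : Sys R M S Γ n) (X : Set Γ), GX X → LX ν X A.ρ → DomE A e ∧ Tor A

/-! ## U. The universal module -/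

/-- ACT: the action of the free group -/
def T_ACT : Prop := ∀ (n : ℕ) (K : Submodule (PR (LL n)) (Fin n → PR (LL n))),
  (∀ i b, ∀ f ∈ K, (mt i b).mulVec f ∈ K) →
  (∀ i b f, (mt i b).mulVec ((mt i (!b)).mulVec f) - f ∈ K) →
  ∃ ρ : FreeGroup ℕ →* Module.End (PR (LL n)) ((Fin n → PR (LL n)) ⧸ K),
    ∀ l f, ρ (FreeGroup.mk l) (K.mkQ f) = K.mkQ (ev l f)

/-- UNV: the universal submodule -/
def T_UNV : Prop := ∀ (n : ℕ) (ν : ℕ → ℕ),
  ∃ K : Submodule (PR (LL n)) (Fin n → PR (LL n)), Adm ν n K ∧ PS K ∧ ∀ K', Adm ν n K' → K ≤ K'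

/-- KER: specialization -/
def T_KER : Prop := ∀ (n : ℕ) (ν : ℕ → ℕ) (Γ : Type u) (R : Type v) (M : Type w) [Group Γ]
  [CommRing R] [AddCommGroup M] [Module R M] (g : Fin n → M) (ρ : Γ →* Module.End R M)
  (X : Set Γ) (x : ℕ → Γ), Submodule.span R (Set.range g) = ⊤ → GX X → LX ν X ρ →
  (∀ i, x i ∈ X) → ∃ K : Submodule (PR (LL n)) (Fin n → PR (LL n)), Adm ν n K ∧
  ∀ l : List (ℕ × Bool), (∀ f, ev l f - f ∈ K) → ρ (FreeGroup.lift x (FreeGroup.mk l)) = 1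

/-- GXF: the free group -/
def T_GXF : Prop := GX XF

/-- INS: the system on the universal module -/
def T_INS : Prop := ∀ (n : ℕ) (ν : ℕ → ℕ) (K : Submodule (PR (LL n)) (Fin n → PR (LL n))),
  Adm ν n K → PS K →
  ∃ A : Sys (PR (LL n)) ((Fin n → PR (LL n)) ⧸ K) (Equiv.Perm ℕ) (FreeGroup ℕ) n,
    Univ n K A ∧ LX ν XF A.ρ

/-- UAC: the chain conditions -/
def T_UAC : Prop := ∀ (n : ℕ) (K : Submodule (PR (LL n)) (Fin n → PR (LL n)))
  (A : Sys (PR (LL n)) ((Fin n → PR (LL n)) ⧸ K) (Equiv.Perm ℕ) (FreeGroup ℕ) n),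
  Univ n K A → PS K → ACCM A ∧ ACCI A

/-- UTH: the theorem -/
def T_UTH : Prop := ∀ (n : ℕ) (ν : ℕ → ℕ), (∀ k, 0 < ν k) → ∃ e : ℕ, 0 < e ∧
  ∀ (Γ : Type u) (R : Type v) (M : Type w) [Group Γ] [CommRing R] [AddCommGroup M] [Module R M]
  (g : Fin n → M) (ρ : Γ →* Module.End R M) (X : Set Γ), Submodule.span R (Set.range g) = ⊤ →
  GX X → LX ν X ρ → ∀ γ, ρ (γ ^ e) = 1

/-- VRB: derived groups -/
def T_VRB : Prop := ∀ (n : ℕ) (ν : ℕ → ℕ), (∀ k, 0 < ν k) → ∃ e : ℕ, 0 < e ∧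
  ∀ (N : Type u) (R : Type v) (M : Type w) [Group N] [CommRing R] [AddCommGroup M] [Module R M]
  (g : Fin n → M) (ρ : N →* Module.End R M), Submodule.span R (Set.range g) = ⊤ →
  Function.Injective ρ → (∀ (k : ℕ) (a b : ℕ → N), pc a b k ^ ν k = 1) →
  ∀ h ∈ commutator N, h ^ e = 1

end Pool.Agent.H11.LGR
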